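import Pool.Agent.W206.YP.Stm

set_option autoImplicit false
set_option linter.all false

namespace Pool.Agent.W918.YP.ALG

open Pool.Agent.W206.YP

theorem main : S_ALG := by
  intro K x y hxy hy
  obtain ⟨N, hN, τ, w, a, b, c, d, hdet, hw, hx, hyj⟩ := hxy
  have hpos : 0 < a * d - b * c := by
    rw [hdet]
    exact_mod_cast hN
  have hint := H294ZP.isogenous_integral τ w a b c d hpos hw
  rw [← hx, ← hyj] at hint
  have hmem : ∀ z : ℂ, z ∈ Algebra.adjoin ℤ ({y} : Set ℂ) → z ∈ K := by
    intro z hz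
    have h1 : Algebra.adjoin ℤ ({y} : Set ℂ) ≤ subalgebraOfSubring K.toSubfield.toSubring := by
      apply Algebra.adjoin_le
      intro u hu
      rw [Set.mem_singleton_iff] at hu
      rw [hu]
      exact hy
    exact h1 hz
  let φ : (Algebra.adjoin ℤ ({y} : Set ℂ)) →+* K :=
    { toFun := fun a => ⟨a.1, hmem a.1 a.2⟩
      map_one' := rfl
      map_mul' := fun _ _ => rfl
      map_zero' := rfl
      map_add' := fun _ _ => rfl }
  obtain ⟨p, hp, hpe⟩ := hint
  have h2 : IsIntegral K x := by
    refine ⟨p.map φ, hp.map φ, ?_⟩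
    rw [Polynomial.eval₂_map]
    exact hpe
  exact h2.isAlgebraic

end Pool.Agent.W918.YP.ALG
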